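import Pool.Agent.P.MP_e24c78_co.Count

set_option autoImplicit false

namespace Pool.Agent.Results.MP_e24c78_co.SphereCounterexample

open Pool.Agent.P.MP_e24c78_co

/-- A triangulation of the 3-sphere with 510 tetrahedra in which every edge lies in at least
five tetrahedra. -/
theorem result : ∃ K : Finset (Finset (Fin 51)),
    K.card = 510 ∧ (∀ F ∈ K, F.card = 4) ∧
    (∀ e : Finset (Fin 51), e.card = 2 → (∃ F ∈ K, e ⊆ F) → 5 ≤ (K.filter (e ⊆ ·)).card) ∧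
    Nonempty ({x : Fin 51 → ℝ // (∀ i, 0 ≤ x i) ∧ ∑ i, x i = 1 ∧ ∃ F ∈ K, ∀ i ∉ F, x i = 0} ≃ₜ
      Metric.sphere (0 : EuclideanSpace ℝ (Fin 4)) 1) := by
  refine ⟨KK, KK_card, fun F hF => ?_, KK_deg, KK_homeo⟩
  obtain ⟨m, hm, rfl⟩ := mem_KK.1 hF
  exact facets_card m hm

end Pool.Agent.Results.MP_e24c78_co.SphereCounterexample
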